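import Mathlib
import Pool.Agent.J4H26.KP.Q2
import Pool.Agent.J4H39.KP.S3

set_option autoImplicit false

/-! Project KP (J2): the constants of the forms do not matter. -/

namespace Pool.Agent.J4H8.KP

open Finset Filter Real
open Pool.Agent.J4H39 (ns ns_rate)
open Pool.Agent.J4H39.KP (ck ck_diff one_close)
open Pool.Agent.J4H26.PC (Iv)
open Pool.Agent.J4H26.KP (ccK S_RST)

theorem rate_lim (C : ℝ) :
    Tendsto (fun L : ℕ => C * √ (1 + (0 : ℝ) ^ 2 + (⌊(L : ℝ) ^ (3 / 4 : ℝ)⌋₊ : ℕ)) * Pool.Agent.H499R2.CO.rho L) atTop (nhds 0) := by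
  have h1 : Tendsto (fun x : ℝ => Real.log x / x ^ (1 / 4 : ℝ)) atTop (nhds 0) :=
    (isLittleO_log_rpow_atTop (by norm_num : (0 : ℝ) < 1 / 4)).tendsto_div_nhds_zero
  have h2 : Tendsto (fun L : ℕ => |C| * √ (4 * (Real.log L / (L : ℝ) ^ (1 / 4 : ℝ)))) atTop (nhds 0) := by
    have := ((h1.comp tendsto_natCast_atTop_atTop).const_mul 4)
    rw [mul_zero] at this
    have h3 := (Real.continuous_sqrt.tendsto 0).comp this
    rw [Real.sqrt_zero] at h3
    have h4 := h3.const_mul |C|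
    rw [mul_zero] at h4
    exact h4
  apply squeeze_zero_norm' _ h2
  filter_upwards [eventually_ge_atTop 2] with L hL
  have hL1 : (1 : ℝ) ≤ L := by exact_mod_cast (by omega : 1 ≤ L)
  have hL0 : (0 : ℝ) < L := by linarith
  rw [Real.norm_eq_abs, mul_assoc, abs_mul]
  apply mul_le_mul_of_nonneg_left _ (abs_nonneg C)
  unfold Pool.Agent.H499R2.CO.rho
  rw [← Real.sqrt_mul (by positivity), abs_of_nonneg (Real.sqrt_nonneg _)]
  apply Real.sqrt_le_sqrt
  have a1 : (⌊(L : ℝ) ^ (3 / 4 : ℝ)⌋₊ : ℝ) ≤ (L : ℝ) ^ (3 / 4 : ℝ) := Nat.floor_le (by positivity)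
  have a2 : (1 : ℝ) ≤ (L : ℝ) ^ (3 / 4 : ℝ) := Real.one_le_rpow hL1 (by norm_num)
  have a3 : Real.log ((L : ℝ) + 1) ≤ 2 * Real.log L := by
    have : 2 * Real.log L = Real.log ((L : ℝ) ^ 2) := by rw [Real.log_pow]; push_cast; ring
    rw [this]
    apply Real.log_le_log (by linarith)
    have : (2 : ℝ) ≤ L := by exact_mod_cast hL
    nlinarith
  have a4 : 0 ≤ Real.log ((L : ℝ) + 1) := Real.log_nonneg (by linarith)
  have a5 : (L : ℝ) = (L : ℝ) ^ (3 / 4 : ℝ) * (L : ℝ) ^ (1 / 4 : ℝ) := by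
    rw [← Real.rpow_add hL0]; norm_num
  have a6 : (0 : ℝ) < (L : ℝ) ^ (3 / 4 : ℝ) := by positivity
  have a7 : (0 : ℝ) < (L : ℝ) ^ (1 / 4 : ℝ) := by positivity
  calc (1 + (0 : ℝ) ^ 2 + (⌊(L : ℝ) ^ (3 / 4 : ℝ)⌋₊ : ℕ)) * (Real.log ((L : ℝ) + 1) / L)
      ≤ (2 * (L : ℝ) ^ (3 / 4 : ℝ)) * (2 * Real.log L / L) := by
        apply mul_le_mul
        · linarith
        · exact div_le_div_of_nonneg_right a3 hL0.le
        · positivity
        · positivity
    _ = 4 * (Real.log L / (L : ℝ) ^ (1 / 4 : ℝ)) := by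
        nth_rewrite 3 [a5]
        field_simp
        ring

theorem t_RST : S_RST := by
  intro K ε hε
  obtain ⟨C, hC, hrate⟩ := ns_rate
  have hε' : 0 < ε / (6 * (K + 1)) := by positivity
  filter_upwards [(rate_lim C).eventually_le_const hε', eventually_ge_atTop 1] with L h hL F hF κ X hκ hX D r hr
  have hX1 : 1 ≤ X := le_trans (one_le_pow₀ (by norm_num)) hX
  have e1 : ccK F κ X D r = ck F κ X (fun i => ((D i : ℤ), r i)) := rfl
  have e2 : ccK F κ X D (fun _ => 0) = ck F κ X (fun i => ((D i : ℤ), 0)) := rfl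
  rw [e1, e2]
  refine (ck_diff (ε := 6 * (ε / (6 * (K + 1)))) hX1 (fun i => ?_) hF).trans ?_
  · have h1 : ns L (((0 : ℕ) : ℤ), r i - 3 ^ 0 * 0) ≤ ε / (6 * (K + 1)) := by
      have h2 := hrate L hL 0 ⌊(L : ℝ) ^ (3 / 4 : ℝ)⌋₊ (r i) (by exact_mod_cast hr i)
      simp only [Nat.cast_zero, mul_zero, sub_zero]
      refine h2.trans ?_
      simpa using h
    have h3 := one_close (κ := κ) (hF i) hX1 hX (D := D i) (d := 0) (r := 0) (r' := r i) h1
    simpa using h3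
  · have hK : (0 : ℝ) < K + 1 := by positivity
    calc (K : ℝ) * (6 * (ε / (6 * (K + 1)))) = K / (K + 1) * ε := by field_simp
      _ ≤ 1 * ε := by
          apply mul_le_mul_of_nonneg_right _ hε.le
          rw [div_le_one hK]
          linarith
      _ = ε := one_mul _

end Pool.Agent.J4H8.KP
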