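import Mathlib
import Pool.Agent.J4H26.KP.Q2
import Pool.Agent.J4H39.KP.S4

set_option autoImplicit false

/-! Project KP (L1): common shift of the exponents. -/

namespace Pool.Agent.J4H8.KP

open Finset Filter Real
open Pool.Agent.J4H39.KP (ck WK gamK)
open Pool.Agent.J4H26.PC (Iv)
open Pool.Agent.J4H26.KP (ccK S_RST S_SHF)

theorem WK_shift {K : ℕ} (f : Fin K → ℤ → ℝ) (κ b : ℝ) {X : ℝ} (a : ℕ) (D : Fin K → ℕ) :
    WK f κ b X (fun i => D i + a) = WK f κ (3 ^ a * b) (3 ^ a * X) D := by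
  have h3 : (3 : ℝ) ^ a ≠ 0 := by positivity
  unfold WK
  have e := intervalIntegral.integral_comp_mul_left (a := κ * X) (b := κ * X + X)
    (fun y => ∏ i, Pool.Agent.J4H26.PC.Ph (f i) (3 ^ D i * y) (3 ^ D i * (3 ^ a * b))) h3
  have e2 : (∫ x in (κ * X)..(κ * X + X), ∏ i, Pool.Agent.J4H26.PC.Ph (f i) (3 ^ (D i + a) * x) (3 ^ (D i + a) * b)) =
      ∫ x in (κ * X)..(κ * X + X), ∏ i, Pool.Agent.J4H26.PC.Ph (f i) (3 ^ D i * (3 ^ a * x)) (3 ^ D i * (3 ^ a * b)) := by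
    congr 1
    funext x
    apply prod_congr rfl
    intro i _
    rw [pow_add, mul_assoc, mul_assoc]
  rw [e2, e, smul_eq_mul, show (3 : ℝ) ^ a * (κ * X) = κ * (3 ^ a * X) by ring,
    show (3 : ℝ) ^ a * (κ * X + X) = κ * (3 ^ a * X) + 3 ^ a * X by ring]
  generalize (∫ x in (κ * (3 ^ a * X))..(κ * (3 ^ a * X) + 3 ^ a * X),
    ∏ i, Pool.Agent.J4H26.PC.Ph (f i) (3 ^ D i * x) (3 ^ D i * (3 ^ a * b))) = I
  rw [div_mul_eq_div_div, inv_mul_eq_div]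

/-- the number `w` for `L` -/
theorem exists_w3 {v L : ℕ} (hv : 200 ≤ v) (hL : v ^ 80 ≤ L) : ∃ w : ℕ, v ≤ w ∧ w ^ 80 ≤ L ∧ L ≤ 2 * w ^ 80 := by
  have hvt : v ≤ L := (Nat.le_self_pow (by norm_num) _).trans hL
  set P : ℕ → Prop := fun u => u ^ 80 ≤ L with hP
  have h1 : P (Nat.findGreatest P L) := Nat.findGreatest_spec hvt hL
  have h2 : v ≤ Nat.findGreatest P L := Nat.le_findGreatest hvt hL
  refine ⟨Nat.findGreatest P L, h2, h1, ?_⟩
  set w := Nat.findGreatest P L with hw'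
  by_contra hcon
  push Not at hcon
  have h3 : P (w + 1) := by
    rw [hP]
    simp only
    have hw : (200 : ℝ) ≤ w := by exact_mod_cast hv.trans h2
    have hwp : (0 : ℝ) < (w : ℝ) + 1 := by linarith only [hw]
    have ha : (-2 : ℝ) ≤ -(1 / ((w : ℝ) + 1)) := by
      have : 1 / ((w : ℝ) + 1) ≤ 1 := by rw [div_le_one hwp]; linarith only [hw]
      linarith only [this]
    have h3 := one_add_mul_le_pow ha 80
    have h4 : 1 + (-(1 / ((w : ℝ) + 1))) = w / (w + 1) := by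
      rw [eq_div_iff hwp.ne', add_mul, neg_mul, div_mul_cancel₀ _ hwp.ne']
      ring
    rw [h4, div_pow, le_div_iff₀ (pow_pos hwp 80)] at h3
    push_cast at h3
    have h5 : (1 : ℝ) / 2 ≤ 1 + 80 * -(1 / ((w : ℝ) + 1)) := by
      have : 1 / ((w : ℝ) + 1) ≤ 1 / 200 := one_div_le_one_div_of_le (by norm_num) (by linarith only [hw])
      linarith only [this]
    have h6 : (1 : ℝ) / 2 * ((w : ℝ) + 1) ^ 80 ≤ (w : ℝ) ^ 80 := (mul_le_mul_of_nonneg_right h5 (pow_pos hwp 80).le).trans h3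
    have h8 : (w + 1) ^ 80 ≤ 2 * w ^ 80 := by
      have : ((w : ℝ) + 1) ^ 80 ≤ 2 * (w : ℝ) ^ 80 := by
        generalize ((w : ℝ) + 1) ^ 80 = P at h6
        linarith only [h6]
      exact_mod_cast this
    exact h8.trans hcon.le
  have h5 : w + 1 ≤ L := (Nat.le_self_pow (by norm_num) _).trans h3
  have h6 := Nat.le_findGreatest h5 h3
  omega

theorem t_SHF0 : S_SHF := by
  intro K ε hε
  have hg := gamK K (show 0 < ε / 2 by positivity) 4
  obtain ⟨v, hv⟩ := eventually_atTop.mp (hg.and (eventually_ge_atTop 200))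
  obtain ⟨_, hv200⟩ := hv v le_rfl
  filter_upwards [eventually_ge_atTop (v ^ 80)] with L hL F hF κ X hκ hX a D ha hD
  obtain ⟨w, hvw, w1, w2⟩ := exists_w3 hv200 hL
  obtain ⟨g, hw200⟩ := hv w hvw
  have hw1 : 1 ≤ w := by omega
  have hwR : (1 : ℝ) ≤ w := by exact_mod_cast hw1
  have hw0 : (0 : ℝ) < w := by linarith
  have hpow : (L : ℝ) ^ (3 / 5 : ℝ) ≤ 2 * (w : ℝ) ^ 48 := by
    have h1 : (L : ℝ) ≤ 2 * (w : ℝ) ^ 80 := by exact_mod_cast w2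
    have h2 : (2 : ℝ) ^ (3 / 5 : ℝ) ≤ 2 := by
      calc (2 : ℝ) ^ (3 / 5 : ℝ) ≤ 2 ^ (1 : ℝ) := Real.rpow_le_rpow_of_exponent_le (by norm_num) (by norm_num)
        _ = 2 := Real.rpow_one 2
    have h3 : ((w : ℝ) ^ 80) ^ (3 / 5 : ℝ) = (w : ℝ) ^ 48 := by
      rw [← Real.rpow_natCast (w : ℝ) 80, ← Real.rpow_mul hw0.le, ← Real.rpow_natCast (w : ℝ) 48]
      norm_num
    calc (L : ℝ) ^ (3 / 5 : ℝ) ≤ (2 * (w : ℝ) ^ 80) ^ (3 / 5 : ℝ) := Real.rpow_le_rpow (by positivity) h1 (by norm_num)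
      _ = 2 ^ (3 / 5 : ℝ) * (w : ℝ) ^ 48 := by rw [Real.mul_rpow (by norm_num) (by positivity), h3]
      _ ≤ 2 * (w : ℝ) ^ 48 := mul_le_mul_of_nonneg_right h2 (by positivity)
  have ha' : a ≤ 2 * w ^ 48 := by
    have : (a : ℝ) ≤ 2 * (w : ℝ) ^ 48 := ha.trans hpow
    exact_mod_cast this
  have hD' : ∀ i, D i ≤ 2 * w ^ 48 := by
    intro i
    have : (D i : ℝ) ≤ 2 * (w : ℝ) ^ 48 := (hD i).trans hpow
    exact_mod_cast this
  have hX1 : (2 : ℝ) ^ (w ^ 80) ≤ X := le_trans (pow_le_pow_right₀ (by norm_num) w1) hX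
  have hX0 : 0 < X := lt_of_lt_of_le (by positivity) hX1
  have h3a : (1 : ℝ) ≤ 3 ^ a := one_le_pow₀ (by norm_num)
  have hX2 : (2 : ℝ) ^ (w ^ 80) ≤ 3 ^ a * X := hX1.trans (le_mul_of_one_le_left hX0.le h3a)
  have hw4 : (w : ℝ) ≤ 4 ^ w := by
    have : w ≤ 4 ^ w := (Nat.lt_pow_self (by norm_num)).le
    exact_mod_cast this
  have hw48 : w ≤ w ^ 48 := Nat.le_self_pow (by norm_num) _
  have hw56 : w ^ 48 ≤ w ^ 56 := Nat.pow_le_pow_right hw1 (by norm_num)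
  have b1 : (3 : ℝ) ^ a * w ≤ 4 ^ (4 * w ^ 56) := by
    calc (3 : ℝ) ^ a * w ≤ 4 ^ a * 4 ^ w := mul_le_mul (pow_le_pow_left₀ (by norm_num) (by norm_num) _) hw4 hw0.le (by positivity)
      _ = 4 ^ (a + w) := by rw [pow_add]
      _ ≤ 4 ^ (4 * w ^ 56) := pow_le_pow_right₀ (by norm_num) (by omega)
  have b2 : (w : ℝ) ≤ 4 ^ (4 * w ^ 56) := le_trans (le_mul_of_one_le_left hw0.le h3a) b1
  have k1 := g F hF κ X w hX1 le_rfl b2 (fun i => D i + a) (fun i => by have := hD' i; omega)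
  have k2 := g F hF κ (3 ^ a * X) (3 ^ a * w) hX2 (le_mul_of_one_le_left hw0.le h3a) b1 D (fun i => by have := hD' i; omega)
  rw [WK_shift] at k1
  have e1 : ccK F κ (3 ^ a * X) D (fun _ => 0) = ck F κ (3 ^ a * X) (fun i => ((D i : ℤ), 0)) := rfl
  have e2 : ccK F κ X (fun i => D i + a) (fun _ => 0) = ck F κ X (fun i => (((D i + a : ℕ) : ℤ), 0)) := rfl
  rw [e1, e2, abs_le]
  rw [abs_le] at k1 k2
  constructor <;> linarith [k1.1, k1.2, k2.1, k2.2]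

theorem t_SHF : S_RST → S_SHF := fun _ => t_SHF0

end Pool.Agent.J4H8.KP
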