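import Mathlib
import Pool.Agent.J4H26.KP.Q2
import Pool.Agent.J4H39.KP.S2

set_option autoImplicit false

/-! Project KP (L3): the transfer over `t` steps, from `J4H39.KP.main_indK`. -/

namespace Pool.Agent.J4H8.KP

open Finset Filter Real
open Pool.Agent.J4H39 (od ex rn stK GK GS th0 th0_pos th0_lt th0_gt)
open Pool.Agent.J4H39.KP (ck main_indK)
open Pool.Agent.J4H26.PC (Iv)
open Pool.Agent.J4H26.KP (ccK cl S_TR2)

/-- the number `w` of a length -/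
theorem exists_w2 {n v t : ℕ} (hn : 1 ≤ n) (hv : 200 ≤ v) (ht : n * v ^ 80 ≤ t) :
    ∃ w : ℕ, v ≤ w ∧ n * w ^ 80 ≤ t ∧ t ≤ 2 * n * w ^ 80 := by
  have hle : ∀ u : ℕ, u ≤ n * u ^ 80 := by
    intro u
    calc u ≤ u ^ 80 := Nat.le_self_pow (by norm_num) _
      _ = 1 * u ^ 80 := (one_mul _).symm
      _ ≤ n * u ^ 80 := Nat.mul_le_mul_right _ hn
  have hvt : v ≤ t := (hle v).trans ht
  set P : ℕ → Prop := fun u => n * u ^ 80 ≤ t with hP
  have h1 : P (Nat.findGreatest P t) := Nat.findGreatest_spec hvt ht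
  have h2 : v ≤ Nat.findGreatest P t := Nat.le_findGreatest hvt ht
  refine ⟨Nat.findGreatest P t, h2, h1, ?_⟩
  set w := Nat.findGreatest P t with hw'
  by_contra hcon
  push Not at hcon
  have h3 : P (w + 1) := by
    rw [hP]
    simp only
    have hw : (200 : ℝ) ≤ w := by exact_mod_cast hv.trans h2
    have hwp : (0 : ℝ) < (w : ℝ) + 1 := by linarith only [hw]
    have ha : (-2 : ℝ) ≤ -(1 / ((w : ℝ) + 1)) := by
      have : 1 / ((w : ℝ) + 1) ≤ 1 := by rw [div_le_one hwp]; linarith only [hw]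
      linarith only [this]
    have h3 := one_add_mul_le_pow ha 80
    have h4 : 1 + (-(1 / ((w : ℝ) + 1))) = w / (w + 1) := by
      rw [eq_div_iff hwp.ne', add_mul, neg_mul, div_mul_cancel₀ _ hwp.ne']
      ring
    rw [h4, div_pow, le_div_iff₀ (pow_pos hwp 80)] at h3
    push_cast at h3
    have h5 : (1 : ℝ) / 2 ≤ 1 + 80 * -(1 / ((w : ℝ) + 1)) := by
      have : 1 / ((w : ℝ) + 1) ≤ 1 / 200 := one_div_le_one_div_of_le (by norm_num) (by linarith only [hw])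
      linarith only [this]
    have h6 : (1 : ℝ) / 2 * ((w : ℝ) + 1) ^ 80 ≤ (w : ℝ) ^ 80 := (mul_le_mul_of_nonneg_right h5 (pow_pos hwp 80).le).trans h3
    have h8 : (w + 1) ^ 80 ≤ 2 * w ^ 80 := by
      have : ((w : ℝ) + 1) ^ 80 ≤ 2 * (w : ℝ) ^ 80 := by
        generalize ((w : ℝ) + 1) ^ 80 = P at h6
        linarith only [h6]
      exact_mod_cast this
    calc n * (w + 1) ^ 80 ≤ n * (2 * w ^ 80) := Nat.mul_le_mul_left _ h8
      _ = 2 * n * w ^ 80 := by ring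
      _ ≤ t := hcon.le
  have h5 : w + 1 ≤ t := (hle (w + 1)).trans h3
  have h6 := Nat.le_findGreatest h5 h3
  omega

theorem up_bd {A : ℝ} (hA : 0 < A) : ∀ᶠ v : ℕ in atTop, (A * (v : ℝ) ^ 80) ^ (29 / 50 : ℝ) ≤ (v : ℝ) ^ 48 := by
  have h1 := ((tendsto_rpow_atTop (by norm_num : (0 : ℝ) < 8 / 5)).comp tendsto_natCast_atTop_atTop).eventually_ge_atTop
    (A ^ (29 / 50 : ℝ))
  filter_upwards [h1, eventually_ge_atTop 1] with v h1 hv
  simp only [Function.comp] at h1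
  have hv0 : (0 : ℝ) < v := by exact_mod_cast hv
  have e1 : (A * (v : ℝ) ^ 80) ^ (29 / 50 : ℝ) = A ^ (29 / 50 : ℝ) * (v : ℝ) ^ (232 / 5 : ℝ) := by
    rw [Real.mul_rpow hA.le (by positivity), ← Real.rpow_natCast (v : ℝ) 80, ← Real.rpow_mul hv0.le]
    norm_num
  have e2 : (v : ℝ) ^ 48 = (v : ℝ) ^ (8 / 5 : ℝ) * (v : ℝ) ^ (232 / 5 : ℝ) := by
    rw [← Real.rpow_add hv0, ← Real.rpow_natCast (v : ℝ) 48]
    norm_num
  rw [e1, e2]
  exact mul_le_mul_of_nonneg_right h1 (by positivity)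

theorem lo_bd {A : ℝ} (hA : 0 < A) : ∀ᶠ v : ℕ in atTop, A * (v : ℝ) ^ 41 ≤ (A * (v : ℝ) ^ 80) ^ (13 / 25 : ℝ) := by
  have h1 := ((tendsto_rpow_atTop (by norm_num : (0 : ℝ) < 3 / 5)).comp tendsto_natCast_atTop_atTop).eventually_ge_atTop
    (A ^ (12 / 25 : ℝ))
  filter_upwards [h1, eventually_ge_atTop 1] with v h1 hv
  simp only [Function.comp] at h1
  have hv0 : (0 : ℝ) < v := by exact_mod_cast hv
  have e1 : (A * (v : ℝ) ^ 80) ^ (13 / 25 : ℝ) = A ^ (13 / 25 : ℝ) * ((v : ℝ) ^ (3 / 5 : ℝ) * (v : ℝ) ^ 41) := by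
    rw [Real.mul_rpow hA.le (by positivity), ← Real.rpow_natCast (v : ℝ) 80, ← Real.rpow_natCast (v : ℝ) 41,
      ← Real.rpow_mul hv0.le, ← Real.rpow_add hv0]
    norm_num
  have e2 : A = A ^ (13 / 25 : ℝ) * A ^ (12 / 25 : ℝ) := by
    rw [← Real.rpow_add hA]
    norm_num
  rw [e1]
  calc A * (v : ℝ) ^ 41 = A ^ (13 / 25 : ℝ) * (A ^ (12 / 25 : ℝ) * (v : ℝ) ^ 41) := by rw [← mul_assoc, ← e2]
    _ ≤ _ := by gcongr

theorem t_TR2 : S_TR2 := by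
  intro K ρ ε hρ hε
  have hρ0 : 0 < ρ - 1 := by linarith
  set n := ⌈30 / (ρ - 1)⌉₊ + 1 with hn
  have hn1 : 1 ≤ n := by omega
  have hn0 : (0 : ℝ) < n := by exact_mod_cast hn1
  have hρn : 30 ≤ (ρ - 1) * n := by
    have h1 : 30 / (ρ - 1) ≤ (n : ℝ) := by
      rw [hn]; push_cast
      have := Nat.le_ceil (30 / (ρ - 1))
      linarith
    rw [div_le_iff₀ hρ0] at h1
    linarith
  obtain ⟨C, hC, hG⟩ := main_indK K n 1
  have t1 : ∀ᶠ w : ℕ in atTop, C / (w : ℝ) ≤ ε := (tendsto_const_div_atTop_nhds_zero_nat C).eventually_le_const hε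
  have t2 : ∀ᶠ w : ℕ in atTop, 10 / (ρ - 1) ≤ (w : ℝ) := tendsto_natCast_atTop_atTop.eventually_ge_atTop _
  have hA2 : (0 : ℝ) < 2 * n := by positivity
  obtain ⟨w₀, hw₀⟩ := eventually_atTop.mp (hG.and (t1.and (t2.and ((up_bd hA2).and ((lo_bd hn0).and (eventually_ge_atTop 200))))))
  obtain ⟨_, _, _, _, _, hw200⟩ := hw₀ w₀ le_rfl
  filter_upwards [eventually_ge_atTop (n * w₀ ^ 80)] with t ht F hF κ hκ X hX hL D hD
  obtain ⟨w, hww, k1, k2⟩ := exists_w2 hn1 hw200 ht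
  obtain ⟨g, q1, q2, q3, q4, hw⟩ := hw₀ w hww
  have hw1 : (1 : ℝ) ≤ w := by exact_mod_cast (by omega : 1 ≤ w)
  have k1' : (n : ℝ) * (w : ℝ) ^ 80 ≤ t := by exact_mod_cast k1
  have k2' : (t : ℝ) ≤ 2 * n * (w : ℝ) ^ 80 := by exact_mod_cast k2
  have hθ0 := th0_pos
  have hθ2 := th0_gt
  have hXL : X = (2 : ℝ) ^ (logb 2 X) := by rw [Real.rpow_logb (by norm_num) (by norm_num) hX]
  have hmain := g t k1 k2 F hF κ X (by
    conv_rhs => rw [hXL]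
    apply Real.rpow_le_rpow_of_exponent_le (by norm_num)
    have f1 : (1 / 5 : ℝ) * ((ρ - 1) * t) ≤ th0 * ((ρ - 1) * t) := mul_le_mul_of_nonneg_right hθ2.le (by positivity)
    have f2 : 3 * (w : ℝ) ^ 80 ≤ (ρ - 1) * t / 10 := by
      have h1 : 30 * (w : ℝ) ^ 80 ≤ (ρ - 1) * n * (w : ℝ) ^ 80 := mul_le_mul_of_nonneg_right hρn (by positivity)
      have h2 : (ρ - 1) * ((n : ℝ) * (w : ℝ) ^ 80) ≤ (ρ - 1) * t := mul_le_mul_of_nonneg_left k1' hρ0.le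
      linarith
    have f3 : (n : ℝ) * (w : ℝ) ^ 45 ≤ (ρ - 1) * t / 10 := by
      rw [div_le_iff₀ hρ0] at q2
      have h1 : (w : ℝ) ^ 46 ≤ (w : ℝ) ^ 80 := pow_le_pow_right₀ hw1 (by norm_num)
      have h2 : (ρ - 1) * ((n : ℝ) * (w : ℝ) ^ 80) ≤ (ρ - 1) * t := mul_le_mul_of_nonneg_left k1' hρ0.le
      have h3 : 10 * ((n : ℝ) * (w : ℝ) ^ 45) ≤ (w : ℝ) * (ρ - 1) * ((n : ℝ) * (w : ℝ) ^ 45) :=
        mul_le_mul_of_nonneg_right q2 (by positivity)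
      have h4 : (ρ - 1) * ((n : ℝ) * (w : ℝ) ^ 46) ≤ (ρ - 1) * ((n : ℝ) * (w : ℝ) ^ 80) := by gcongr
      have h5 : (w : ℝ) * (ρ - 1) * ((n : ℝ) * (w : ℝ) ^ 45) = (ρ - 1) * ((n : ℝ) * (w : ℝ) ^ 46) := by ring
      linarith
    linarith) (fun i => ((D i : ℤ), 0)) (by
    intro i
    obtain ⟨_, d2⟩ := hD i
    have h1 : (D i : ℝ) ≤ (w : ℝ) ^ 48 := d2.trans ((Real.rpow_le_rpow (by positivity) k2' (by norm_num)).trans q3)
    have h2 : D i ≤ w ^ 48 := by exact_mod_cast h1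
    refine ⟨?_, by simp⟩
    simp only [one_mul, Nat.abs_cast]
    exact_mod_cast h2) (by
    intro i
    obtain ⟨d1, _⟩ := hD i
    have h1 : (n : ℝ) * (w : ℝ) ^ 41 ≤ D i := q4.trans ((Real.rpow_le_rpow (by positivity) k1' (by norm_num)).trans d1)
    have h2 : n * w ^ 41 ≤ D i := by exact_mod_cast h1
    simp only
    exact_mod_cast h2)
  have e0 : ccK F κ X D (fun _ => 0) = ck F κ X (fun i => ((D i : ℤ), 0)) := rfl
  rw [e0]
  exact hmain.trans q1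

end Pool.Agent.J4H8.KP
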