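import Mathlib
import Pool.Agent.J4H8.PC.Gt
import Pool.Agent.J4H26.KP.Q

set_option autoImplicit false

/-! Project KP (J5): many stages. -/

namespace Pool.Agent.J4H8.KP

open Finset Filter Real
open Pool.Agent.J4H39 (T od ex pb ns rn stP stK Rel par GK GS Cm th0 Gd Per exit_time od_lo pb_Gd pb_per pb_mono pb_or pb_nonneg
  pb_exists ex_mono ex_congr ex_add ex_mul ex_const ex_pair od_comp rn_comp per_od per_rn th0_pos th0_lt th0_gt three_pow Cm_rn
  Cm_nonneg rn_stK_apply rn_zero par_eq)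
open Pool.Agent.J4H26.PC (Iv)
open Pool.Agent.J4H26.KP (ccK cgK EK S_G1K S_TRK)
open Pool.Agent.J4H8.PC (ex_cmp exists_w ceil_gap)

/-- the integers of an interval in one class -/
theorem class_bd {q : ℕ} (hq : 0 < q) (v a b : ℤ) (hab : a ≤ b) :
    (((Finset.Ico a b).filter (fun x => x ≡ v [ZMOD (q : ℤ)])).card : ℝ) ≤ ((b : ℝ) - a) / q + 1 := by
  have h := Int.Ico_filter_modEq_card a b (r := (q : ℤ)) (by exact_mod_cast hq) v
  have hq' : (0 : ℚ) < ((q : ℤ) : ℚ) := by exact_mod_cast hq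
  have h1 := Int.ceil_lt_add_one (((b : ℚ) - v) / ((q : ℤ) : ℚ))
  have h2 := Int.le_ceil (((a : ℚ) - v) / ((q : ℤ) : ℚ))
  have h3 : ((((Finset.Ico a b).filter (fun x => x ≡ v [ZMOD (q : ℤ)])).card : ℤ) : ℚ) ≤ ((b : ℚ) - a) / ((q : ℤ) : ℚ) + 1 := by
    rw [h]
    push_cast
    have e : ((b : ℚ) - a) / (q : ℚ) = ((b : ℚ) - v) / (q : ℚ) - ((a : ℚ) - v) / (q : ℚ) := by ring
    rw [e]
    push_cast at h1 h2
    apply max_le
    · linarith
    · have h4 : (0 : ℚ) ≤ ((b : ℚ) - a) / (q : ℚ) := by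
        apply div_nonneg _ (by positivity)
        have : (a : ℚ) ≤ b := by exact_mod_cast hab
        linarith
      rw [← e]
      linarith
  have h5 := (Rat.cast_le (K := ℝ)).mpr h3
  push_cast at h5
  exact h5

theorem EK_class {K : ℕ} (s : Fin K → ℤ × ℤ) :
    ∃ v : ℤ, ∀ y : ℤ, (∀ i, ∃ y' : ℤ, Rel (s i) y y') → y ≡ v [ZMOD ((3 ^ EK s : ℕ) : ℤ)] := by
  by_cases h : EK s = 0
  · refine ⟨0, fun y _ => ?_⟩
    rw [h]
    simpa using Int.modEq_one
  · have hne : (univ : Finset (Fin K)).Nonempty := by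
      rw [Finset.nonempty_iff_ne_empty]
      intro hh
      apply h
      unfold EK
      rw [hh]
      rfl
    obtain ⟨i, _, hi⟩ := Finset.exists_mem_eq_sup univ hne (fun i => (-(s i).1).toNat)
    refine ⟨-(s i).2, fun y hy => ?_⟩
    obtain ⟨y', hy'⟩ := hy i
    have hi' : EK s = (-(s i).1).toNat := hi
    unfold Pool.Agent.J4H39.Rel at hy'
    have h0 : (s i).1.toNat = 0 := by omega
    rw [← hi', h0, pow_zero, one_mul] at hy'
    rw [Int.modEq_iff_dvd]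
    refine ⟨-y', ?_⟩
    push_cast
    linarith

theorem cgK_bd {K : ℕ} {F : Fin K → ℤ → ℝ} (hF : ∀ i, Iv (F i)) (κ X : ℝ) (s : Fin K → ℤ × ℤ) : |cgK F κ X s| ≤ 3 := by
  classical
  have hq : (0 : ℝ) < 3 ^ EK s := by positivity
  have hm : (0 : ℝ) < max (X / 3 ^ EK s) 1 := lt_of_lt_of_le one_pos (le_max_right _ _)
  unfold cgK
  rcases le_or_gt 0 X with ha | ha
  · rw [abs_div, abs_of_pos hm, div_le_iff₀ hm]
    have h1 : ⌈κ * X⌉ ≤ ⌈κ * X + X⌉ := Int.ceil_le_ceil (by linarith)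
    obtain ⟨v, hv⟩ := EK_class s
    have h2 := class_bd (q := 3 ^ EK s) (by positivity) v _ _ h1
    have h3 := ceil_gap (x := κ * X) (a := X)
    have h4 : |∑ y ∈ Finset.Ico ⌈κ * X⌉ ⌈κ * X + X⌉, if (∀ i, ∃ y' : ℤ, Rel (s i) y y') then ∏ i, F i (par (s i) y) else 0| ≤
        (((Finset.Ico ⌈κ * X⌉ ⌈κ * X + X⌉).filter (fun x => x ≡ v [ZMOD ((3 ^ EK s : ℕ) : ℤ)])).card : ℝ) := by
      refine (abs_sum_le_sum_abs _ _).trans ?_
      rw [Finset.card_filter]
      push_cast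
      apply sum_le_sum
      intro y _
      by_cases hy : ∀ i, ∃ y' : ℤ, Rel (s i) y y'
      · have := hv y hy
        push_cast at this
        rw [if_pos hy, if_pos this, Finset.abs_prod]
        exact prod_le_one (fun i _ => abs_nonneg _) (fun i _ => (hF i).bd _)
      · rw [if_neg hy, abs_zero]
        split_ifs <;> norm_num
    have h5 := le_max_left (X / 3 ^ EK s) 1
    have h6 := le_max_right (X / 3 ^ EK s) 1
    push_cast at h2 h3 h4
    have h7 : (((⌈κ * X + X⌉ : ℤ) : ℝ) - (⌈κ * X⌉ : ℤ)) / 3 ^ EK s ≤ X / 3 ^ EK s + 1 := by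
      have e1 : (((⌈κ * X + X⌉ : ℤ) : ℝ) - (⌈κ * X⌉ : ℤ)) / 3 ^ EK s ≤ (X + 1) / 3 ^ EK s := div_le_div_of_nonneg_right h3 hq.le
      have e2 : (1 : ℝ) / 3 ^ EK s ≤ 1 := by
        rw [div_le_one hq]
        exact one_le_pow₀ (by norm_num)
      rw [add_div] at e1
      linarith
    linarith
  · have h1 : ⌈κ * X + X⌉ ≤ ⌈κ * X⌉ := Int.ceil_le_ceil (by linarith)
    rw [Finset.Ico_eq_empty (by omega)]
    simp

/-- one stage for the averages over words -/
theorem stage {K : ℕ} {C : ℝ} {w j : ℕ} (h1 : ∀ F : Fin K → ℤ → ℝ, (∀ i, Iv (F i)) → ∀ κ : ℝ, |κ| ≤ 1 → ∀ X : ℝ,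
    (2 : ℝ) ^ (4 * j) ≤ X → ∀ s : Fin K → ℤ × ℤ, Cm s → (∃ i, s i = (0, 0)) →
    (∀ i, |(s i).1| ≤ w ^ 48 ∧ |(s i).2| ≤ 4 ^ (w ^ 56)) →
    |cgK F κ X s - ex j (fun y => cgK F κ (3 ^ od j y * X / 2 ^ j) (rn stK j s y))| ≤ C / w)
    (hC : 0 ≤ C) {F : Fin K → ℤ → ℝ} (hF : ∀ i, Iv (F i)) {κ X : ℝ} (hκ : |κ| ≤ 1) {t n δ l a : ℕ} {D : Fin K → ℕ}
    (hD0 : ∃ i, D i = 0) (hDa : ∀ i, D i ≤ a) (htn : t ≤ n) (hD : a + δ ≤ w ^ 48) (hr : a + 2 * δ + 0 + l + 1 ≤ w ^ 56)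
    (hX : ∀ o : ℕ, t ≤ 2 * o + δ → (2 : ℝ) ^ (4 * j) ≤ 3 ^ o * X / 2 ^ t) :
    |ex t (fun y => cgK F κ (3 ^ od t y * X / 2 ^ t) (rn stK t (fun i => ((D i : ℤ), 0)) y)) -
      ex (t + j) (fun y => cgK F κ (3 ^ od (t + j) y * X / 2 ^ (t + j)) (rn stK (t + j) (fun i => ((D i : ℤ), 0)) y))| ≤
      C / w + 6 * ((2 * K + 1) * pb n (fun y => ¬ Gd n (4 ^ l : ℕ) δ y)) := by
  set s0 : Fin K → ℤ × ℤ := fun i => ((D i : ℤ), 0) with hs0
  have e1 : ex (t + j) (fun y => cgK F κ (3 ^ od (t + j) y * X / 2 ^ (t + j)) (rn stK (t + j) s0 y)) =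
      ex t (fun y => ex j (fun u => cgK F κ (3 ^ od j u * (3 ^ od t y * X / 2 ^ t) / 2 ^ j) (rn stK j (rn stK t s0 y) u))) := by
    rw [← ex_pair t j (fun y u => cgK F κ (3 ^ od j u * (3 ^ od t y * X / 2 ^ t) / 2 ^ j) (rn stK j (rn stK t s0 y) u))]
    · apply ex_congr
      intro y
      rw [od_comp, rn_comp, pow_add, pow_add]
      congr 1
      field_simp
    · intro z x u
      simp only
      rw [per_od (le_refl t) x u, per_rn stK s0 (le_refl t) x u]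
    · intro y x u
      simp only
      rw [per_od (le_refl j) x u, per_rn stK _ (le_refl j) x u]
  rw [e1]
  set Bad : ℤ → Prop := fun y => ¬ ((∀ i, GS (a + δ) (a + 2 * δ + 0 + l + 1) (rn stK t s0 y i)) ∧ t ≤ 2 * od t y + δ) with hBad
  have hbad : pb t Bad ≤ (2 * K + 1) * pb n (fun y => ¬ Gd n (4 ^ l : ℕ) δ y) := by
    have hper : Per t Bad := by
      intro x u
      rw [hBad]
      simp only
      rw [per_od (le_refl t) x u, per_rn stK s0 (le_refl t) x u]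
    rw [← pb_per htn hper]
    have h2 : ∀ i, pb n (fun y => ∃ t ≤ n, ¬ GS (a + δ) (a + 2 * δ + 0 + l + 1) (rn stP t (s0 i) y)) ≤
        2 * pb n (fun y => ¬ Gd n (4 ^ l : ℕ) δ y) := by
      intro i
      have hGS : GS a 0 (s0 i) := ⟨by simpa [hs0] using hDa i, by simp [hs0]⟩
      exact exit_time (n := n) (l := l) (δ := δ) hGS
    have h3 : pb n Bad ≤ pb n (fun y => (∃ i ∈ (univ : Finset (Fin K)),
        ∃ t ≤ n, ¬ GS (a + δ) (a + 2 * δ + 0 + l + 1) (rn stP t (s0 i) y)) ∨ ¬ Gd n (4 ^ l : ℕ) δ y) := by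
      apply pb_mono
      intro y hy
      by_contra hcon
      rw [not_or, not_not] at hcon
      obtain ⟨c1, c2⟩ := hcon
      push Not at c1
      refine hy ⟨fun i => ?_, od_lo c2 htn⟩
      rw [rn_stK_apply]
      exact c1 i (mem_univ _) t htn
    have h5 := pb_exists (univ : Finset (Fin K)) n
      (fun i y => ∃ t ≤ n, ¬ GS (a + δ) (a + 2 * δ + 0 + l + 1) (rn stP t (s0 i) y))
    have h6 : ∑ i ∈ (univ : Finset (Fin K)), pb n (fun y => ∃ t ≤ n, ¬ GS (a + δ) (a + 2 * δ + 0 + l + 1) (rn stP t (s0 i) y)) ≤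
        K * (2 * pb n (fun y => ¬ Gd n (4 ^ l : ℕ) δ y)) := by
      refine (sum_le_card_nsmul _ _ _ (fun i _ => h2 i)).trans ?_
      rw [card_univ, Fintype.card_fin, nsmul_eq_mul]
    refine h3.trans ((pb_or _ _ _).trans ?_)
    linarith
  have h4 : |ex t (fun y => cgK F κ (3 ^ od t y * X / 2 ^ t) (rn stK t s0 y)) -
      ex t (fun y => ex j (fun u => cgK F κ (3 ^ od j u * (3 ^ od t y * X / 2 ^ t) / 2 ^ j) (rn stK j (rn stK t s0 y) u)))| ≤
      C / w + 6 * pb t Bad := by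
    apply ex_cmp
    · intro y hy
      rw [hBad] at hy
      simp only [not_not] at hy
      obtain ⟨g1, g3⟩ := hy
      apply h1 F hF κ hκ _ (hX _ g3)
      · exact Cm_rn (Cm_nonneg (fun i => by simp [hs0])) t y
      · obtain ⟨i, hi⟩ := hD0
        refine ⟨i, ?_⟩
        rw [rn_stK_apply]
        have : s0 i = (0, 0) := by simp [hs0, hi]
        rw [this, rn_zero]
      · intro i
        obtain ⟨k1, k2⟩ := g1 i
        refine ⟨k1.trans ?_, k2.trans ?_⟩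
        · exact_mod_cast hD
        · exact pow_le_pow_right₀ (by norm_num) hr
    · intro y
      have b1 := cgK_bd hF κ (3 ^ od t y * X / 2 ^ t) (rn stK t s0 y)
      have b2 : |ex j (fun u => cgK F κ (3 ^ od j u * (3 ^ od t y * X / 2 ^ t) / 2 ^ j) (rn stK j (rn stK t s0 y) u))| ≤ 3 := by
        have c1 := ex_mono (j := j) (f := fun u => cgK F κ (3 ^ od j u * (3 ^ od t y * X / 2 ^ t) / 2 ^ j) (rn stK j (rn stK t s0 y) u))
          (g := fun _ => 3) (fun u => (abs_le.mp (cgK_bd hF κ _ _)).2)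
        have c2 := ex_mono (j := j) (g := fun u => cgK F κ (3 ^ od j u * (3 ^ od t y * X / 2 ^ t) / 2 ^ j) (rn stK j (rn stK t s0 y) u))
          (f := fun _ => -3) (fun u => (abs_le.mp (cgK_bd hF κ _ _)).1)
        rw [ex_const] at c1 c2
        rw [abs_le]
        exact ⟨c2, c1⟩
      rw [abs_le] at b1 b2 ⊢
      constructor <;> linarith [b1.1, b1.2, b2.1, b2.2]
    · positivity
  linarith

/-- the probability of the exceptional words, `t ≤ A v ^ 80` -/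
noncomputable def RR (A : ℝ) (v : ℕ) : ℝ :=
  (A * (v : ℝ) ^ 80 + 1) * (A * (v : ℝ) ^ 80 / (4 * 4 ^ v) + 2 * Real.exp (-((v : ℝ) / (32 * A))))

theorem RR_lim {A : ℝ} (hA : 0 < A) : Tendsto (RR A) atTop (nhds 0) := by
  have hr : 1 < Real.exp (1 / (32 * A)) := Real.one_lt_exp_iff.mpr (by positivity)
  have t1 := tendsto_pow_const_div_const_pow_of_one_lt 160 (by norm_num : (1 : ℝ) < 4)
  have t2 := tendsto_pow_const_div_const_pow_of_one_lt 80 hr
  have t3 := tendsto_pow_const_div_const_pow_of_one_lt 80 (by norm_num : (1 : ℝ) < 4)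
  have t4 := tendsto_pow_const_div_const_pow_of_one_lt 0 hr
  have t5 := (((t1.const_mul (A ^ 2 / 4)).add (t2.const_mul (2 * A))).add (t3.const_mul (A / 4))).add (t4.const_mul 2)
  rw [mul_zero, mul_zero, mul_zero, mul_zero, add_zero, add_zero, add_zero] at t5
  refine t5.congr fun v => ?_
  unfold RR
  have e : Real.exp (-((v : ℝ) / (32 * A))) = 1 / Real.exp (1 / (32 * A)) ^ v := by
    rw [← Real.exp_nat_mul, Real.exp_neg, one_div]
    congr 2
    field_simp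
  rw [e, pow_zero]
  have h4 : (4 : ℝ) ^ v ≠ 0 := by positivity
  have h5 : Real.exp (1 / (32 * A)) ^ v ≠ 0 := by positivity
  field_simp
  ring

theorem RR_bd {A : ℝ} (hA : 0 < A) {v t : ℕ} (hv : 200 ≤ v) (ht : 1 ≤ t) (htA : (t : ℝ) ≤ A * (v : ℝ) ^ 80) :
    pb t (fun y => ¬ Gd t (4 ^ v : ℕ) (v ^ 48 / 2 : ℕ) y) ≤ RR A v := by
  have hv1 : (1 : ℝ) ≤ v := by exact_mod_cast (by omega : 1 ≤ v)
  have ht0 : (0 : ℝ) < t := by exact_mod_cast ht
  have hd : (v : ℝ) ^ 48 / 4 ≤ ((v ^ 48 / 2 : ℕ) : ℝ) := by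
    have h1 : v ^ 48 ≤ 4 * (v ^ 48 / 2) := by
      have : 2 ≤ v ^ 48 := (by omega : 2 ≤ v).trans (Nat.le_self_pow (by norm_num) _)
      omega
    have h2 : (v : ℝ) ^ 48 ≤ 4 * ((v ^ 48 / 2 : ℕ) : ℝ) := by exact_mod_cast h1
    linarith
  refine (pb_Gd (Nat.one_le_pow _ _ (by norm_num)) ht (by positivity)).trans ?_
  push_cast
  set d : ℝ := ((v ^ 48 / 2 : ℕ) : ℝ) with hdd
  unfold RR
  have e1 : Real.exp (-(d ^ 2 / (2 * (t : ℝ)))) ≤ Real.exp (-((v : ℝ) / (32 * A))) := by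
    apply Real.exp_le_exp.mpr
    apply neg_le_neg
    rw [div_le_div_iff₀ (by positivity) (by positivity)]
    have h3 : ((v : ℝ) ^ 48 / 4) ^ 2 ≤ d ^ 2 := pow_le_pow_left₀ (by positivity) hd 2
    have h4 : (v : ℝ) ^ 81 ≤ (v : ℝ) ^ 96 := pow_le_pow_right₀ hv1 (by norm_num)
    calc (v : ℝ) * (2 * (t : ℝ)) ≤ (v : ℝ) * (2 * (A * (v : ℝ) ^ 80)) := by gcongr
      _ = 2 * A * (v : ℝ) ^ 81 := by ring
      _ ≤ 2 * A * (v : ℝ) ^ 96 := by gcongr
      _ = ((v : ℝ) ^ 48 / 4) ^ 2 * (32 * A) := by ring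
      _ ≤ d ^ 2 * (32 * A) := by gcongr
  have e2 : (t : ℝ) / (4 * 4 ^ v) ≤ A * (v : ℝ) ^ 80 / (4 * 4 ^ v) := div_le_div_of_nonneg_right htA (by positivity)
  apply mul_le_mul (by linarith) (by linarith) (by positivity) (by positivity)

theorem D_bd {A : ℝ} (hA : 0 < A) : ∀ᶠ v : ℕ in atTop, (A * (v : ℝ) ^ 80) ^ (29 / 50 : ℝ) ≤ (v : ℝ) ^ 48 / 4 := by
  have h1 := ((tendsto_rpow_atTop (by norm_num : (0 : ℝ) < 8 / 5)).comp tendsto_natCast_atTop_atTop).eventually_ge_atTop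
    (4 * A ^ (29 / 50 : ℝ))
  filter_upwards [h1, eventually_ge_atTop 1] with v h1 hv
  simp only [Function.comp] at h1
  have hv0 : (0 : ℝ) < v := by exact_mod_cast hv
  have e1 : (A * (v : ℝ) ^ 80) ^ (29 / 50 : ℝ) = A ^ (29 / 50 : ℝ) * (v : ℝ) ^ (232 / 5 : ℝ) := by
    rw [Real.mul_rpow hA.le (by positivity), ← Real.rpow_natCast (v : ℝ) 80, ← Real.rpow_mul hv0.le]
    norm_num
  have e2 : (v : ℝ) ^ 48 = (v : ℝ) ^ (8 / 5 : ℝ) * (v : ℝ) ^ (232 / 5 : ℝ) := by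
    rw [← Real.rpow_add hv0, ← Real.rpow_natCast (v : ℝ) 48]
    norm_num
  rw [e1, e2]
  have h2 : (0 : ℝ) < (v : ℝ) ^ (232 / 5 : ℝ) := by positivity
  nlinarith

/-- the number `v` for `t` -/
theorem exists_v {m v₀ t : ℕ} (hm : 1 ≤ m) (hv₀ : 1 ≤ v₀) (ht : 4 * m * v₀ ^ 80 ≤ t) :
    ∃ v : ℕ, v₀ ≤ v ∧ 4 * m * v ^ 80 ≤ t ∧ t ≤ 4 * m * 2 ^ 80 * v ^ 80 := by
  have hle : ∀ u : ℕ, u ≤ 4 * m * u ^ 80 := by
    intro u
    calc u ≤ u ^ 80 := Nat.le_self_pow (by norm_num) _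
      _ = 1 * u ^ 80 := (one_mul _).symm
      _ ≤ 4 * m * u ^ 80 := Nat.mul_le_mul_right _ (by omega)
  have hv₀t : v₀ ≤ t := (hle v₀).trans ht
  set P : ℕ → Prop := fun u => 4 * m * u ^ 80 ≤ t with hP
  have h1 : P (Nat.findGreatest P t) := Nat.findGreatest_spec hv₀t ht
  have h2 : v₀ ≤ Nat.findGreatest P t := Nat.le_findGreatest hv₀t ht
  refine ⟨Nat.findGreatest P t, h2, h1, ?_⟩
  set v := Nat.findGreatest P t with hv
  by_contra hcon
  push Not at hcon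
  have h3 : P (v + 1) := by
    rw [hP]
    simp only
    have h4 : (v + 1) ^ 80 ≤ (2 * v) ^ 80 := Nat.pow_le_pow_left (by omega) _
    calc 4 * m * (v + 1) ^ 80 ≤ 4 * m * (2 * v) ^ 80 := Nat.mul_le_mul_left _ h4
      _ = 4 * m * 2 ^ 80 * v ^ 80 := by rw [mul_pow]; ring
      _ ≤ t := hcon.le
  have h5 : v + 1 ≤ t := (hle (v + 1)).trans h3
  have h6 := Nat.le_findGreatest h5 h3
  omega

theorem ccK_eq {K : ℕ} (F : Fin K → ℤ → ℝ) (κ X : ℝ) (D : Fin K → ℕ) :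
    ex 0 (fun y => cgK F κ (3 ^ od 0 y * X / 2 ^ 0) (rn stK 0 (fun i => ((D i : ℤ), 0)) y)) = ccK F κ X D (fun _ => 0) := by
  classical
  have hE : EK (fun i : Fin K => ((D i : ℤ), (0 : ℤ))) = 0 := by
    unfold EK
    rw [← Nat.le_zero]
    apply Finset.sup_le
    intro i _
    simp
  have h : cgK F κ X (fun i => ((D i : ℤ), 0)) = ccK F κ X D (fun _ => 0) := by
    unfold cgK ccK
    rw [hE, pow_zero, div_one]
    congr 1
    apply sum_congr rfl
    intro y _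
    have hrel : ∀ i : Fin K, Pool.Agent.J4H39.Rel ((D i : ℤ), (0 : ℤ)) y (3 ^ D i * y) := by
      intro i
      unfold Pool.Agent.J4H39.Rel
      simp
    rw [if_pos (fun i => ⟨_, hrel i⟩)]
    apply prod_congr rfl
    intro i _
    rw [par_eq (hrel i), add_zero]
  rw [← h]
  unfold ex
  simp [od, rn]

theorem t_TRK : S_G1K → S_TRK := by
  intro hG K ρ ε hρ hε
  obtain ⟨C, hC, hG⟩ := hG K
  obtain ⟨w₀, hw₀⟩ := eventually_atTop.mp hG
  set m := ⌈40 / (ρ - 1)⌉₊ + 1 with hm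
  have hρ0 : 0 < ρ - 1 := by linarith
  have hm1 : 1 ≤ m := by omega
  have hm0 : (0 : ℝ) < m := by exact_mod_cast hm1
  have hρm : 40 ≤ (ρ - 1) * m := by
    have h1 : 40 / (ρ - 1) ≤ (m : ℝ) := by
      rw [hm]; push_cast
      have := Nat.le_ceil (40 / (ρ - 1))
      linarith
    rw [div_le_iff₀ hρ0] at h1
    linarith
  set A : ℝ := 4 * m * 2 ^ 80 with hA
  have hA0 : 0 < A := by positivity
  -- the total error
  have hlim : Tendsto (fun v : ℕ => (m : ℝ) * (C / v + 6 * ((2 * K + 1) * RR A v))) atTop (nhds 0) := by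
    have t1 : Tendsto (fun v : ℕ => C / (v : ℝ)) atTop (nhds 0) := tendsto_const_div_atTop_nhds_zero_nat C
    have t2 := (((RR_lim hA0).const_mul (2 * (K : ℝ) + 1)).const_mul 6)
    have t3 := (t1.add t2).const_mul (m : ℝ)
    simpa using t3
  have hev : ∀ᶠ v : ℕ in atTop, (m : ℝ) * (C / v + 6 * ((2 * K + 1) * RR A v)) ≤ ε := hlim.eventually_le_const hε
  obtain ⟨v₀, hv₀⟩ := eventually_atTop.mp (hev.and ((D_bd hA0).and ((eventually_ge_atTop 200).and (eventually_ge_atTop w₀))))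
  obtain ⟨q1, q2, q3, q4⟩ := hv₀ v₀ le_rfl
  filter_upwards [eventually_ge_atTop (4 * m * v₀ ^ 80)] with t ht F hF κ hκ X hX hL D hD0 hDt
  obtain ⟨v, hvv, hv1, hv2⟩ := exists_v hm1 (by omega) ht
  obtain ⟨p1, p2, hv, hvw⟩ := hv₀ v hvv
  have hv0 : (0 : ℝ) < v := by exact_mod_cast (by omega : 0 < v)
  have hv200 : (200 : ℝ) ≤ v := by exact_mod_cast hv
  have hvr1 : (1 : ℝ) ≤ v := by linarith
  have ht1 : 1 ≤ t := by
    have : 1 ≤ v ^ 80 := Nat.one_le_pow _ _ (by omega)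
    calc 1 ≤ v ^ 80 := this
      _ = 1 * v ^ 80 := (one_mul _).symm
      _ ≤ 4 * m * v ^ 80 := Nat.mul_le_mul_right _ (by omega)
      _ ≤ t := hv1
  have htA : (t : ℝ) ≤ A * (v : ℝ) ^ 80 := by
    rw [hA]; exact_mod_cast hv2
  have htv : 4 * m * (v : ℝ) ^ 80 ≤ t := by exact_mod_cast hv1
  have hpb := RR_bd hA0 hv ht1 htA
  set L := logb 2 X with hL'
  have hX2 : X = (2 : ℝ) ^ L := by rw [hL', Real.rpow_logb (by norm_num) (by norm_num) hX]
  set δ := v ^ 48 / 2 with hδ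
  have hθ0 := th0_pos
  have hθ1 := th0_lt
  have hθ2 := th0_gt
  have hDa : ∀ i, D i ≤ v ^ 48 / 2 := by
    intro i
    have h1 : (D i : ℝ) ≤ (v : ℝ) ^ 48 / 4 := (hDt i).trans ((Real.rpow_le_rpow (by positivity) htA (by norm_num)).trans p2)
    have h2 : 4 * D i ≤ v ^ 48 := by
      have : 4 * (D i : ℝ) ≤ (v : ℝ) ^ 48 := by linarith
      exact_mod_cast this
    omega
  -- the main induction
  have key : ∀ i : ℕ, i ≤ m →
      |ex 0 (fun y => cgK F κ (3 ^ od 0 y * X / 2 ^ 0) (rn stK 0 (fun i => ((D i : ℤ), 0)) y)) -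
        ex (i * t / m) (fun y => cgK F κ (3 ^ od (i * t / m) y * X / 2 ^ (i * t / m))
          (rn stK (i * t / m) (fun i => ((D i : ℤ), 0)) y))| ≤ i * (C / v + 6 * ((2 * K + 1) * RR A v)) := by
    intro i
    induction i with
    | zero =>
      intro _
      rw [zero_mul, Nat.zero_div]
      simp
    | succ i ih =>
      intro hi
      have k1 := ih (by omega)
      set T := i * t / m with hT
      have b1 : m * T ≤ i * t := Nat.mul_div_le _ _
      have b2 : i * t < m * (T + 1) := Nat.lt_mul_div_succ _ hm1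
      set T' := (i + 1) * t / m with hT'
      have b3 : m * T' ≤ (i + 1) * t := Nat.mul_div_le _ _
      have b4 : (i + 1) * t < m * (T' + 1) := Nat.lt_mul_div_succ _ hm1
      have hTT : T ≤ T' := Nat.div_le_div_right (Nat.mul_le_mul_right _ (by omega))
      obtain ⟨j, hj⟩ := Nat.exists_eq_add_of_le hTT
      have b3' : (m : ℝ) * (T + j) ≤ (i + 1) * t := by
        rw [hj] at b3; exact_mod_cast b3
      have b4' : ((i : ℝ) + 1) * t < m * (T + j + 1) := by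
        rw [hj] at b4; exact_mod_cast b4
      have b1' : (m : ℝ) * T ≤ i * t := by exact_mod_cast b1
      have b2' : (i : ℝ) * t < m * (T + 1) := by exact_mod_cast b2
      have j1 : (m : ℝ) * j ≤ t + m := by nlinarith
      have j2 : (t : ℝ) - m ≤ m * j := by nlinarith
      have h80 : (1 : ℝ) ≤ (v : ℝ) ^ 80 := one_le_pow₀ hvr1
      have hjv : v ^ 80 ≤ j := by
        have e1 : (m : ℝ) * (v : ℝ) ^ 80 ≤ m * j := by
          have : (m : ℝ) * 1 ≤ m * (v : ℝ) ^ 80 := by gcongr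
          linarith
        have e2 : (v : ℝ) ^ 80 ≤ j := le_of_mul_le_mul_left e1 hm0
        exact_mod_cast e2
      have hTt : T ≤ t := by
        have : i * t / m ≤ m * t / m := Nat.div_le_div_right (Nat.mul_le_mul_right _ (by omega))
        rw [Nat.mul_div_cancel_left _ hm1] at this
        exact this
      obtain ⟨w, hvw', hw1, hw2⟩ := exists_w hv hjv
      have hδ2 : 2 * δ ≤ v ^ 48 := by omega
      have hw48 : v ^ 48 ≤ w ^ 48 := Nat.pow_le_pow_left hvw' _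
      have hw56 : v ^ 56 ≤ w ^ 56 := Nat.pow_le_pow_left hvw' _
      have h4856 : 3 * v ^ 48 ≤ v ^ 56 := by
        calc 3 * v ^ 48 ≤ v ^ 8 * v ^ 48 := Nat.mul_le_mul_right _ ((by omega : 3 ≤ v).trans (Nat.le_self_pow (by norm_num) _))
          _ = v ^ 56 := by rw [← pow_add]
      have hvv48 : v ≤ v ^ 48 := Nat.le_self_pow (by norm_num) _
      have hst := stage (n := t) (δ := δ) (l := v) (X := X) (a := v ^ 48 / 2) (hw₀ w (hvw.trans hvw') j hw1 hw2) hC.le hF hκ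
        (D := D) hD0 hDa hTt (by omega) (by omega) (by
        intro o ho
        rw [three_pow, hX2, ← Real.rpow_natCast 2 T, ← Real.rpow_add (by norm_num), ← Real.rpow_sub (by norm_num),
          ← Real.rpow_natCast 2 (4 * j)]
        apply Real.rpow_le_rpow_of_exponent_le (by norm_num)
        have e1 : (T : ℝ) ≤ 2 * o + δ := by exact_mod_cast ho
        have e2 : (1 - th0) * T ≤ (1 - th0) * (2 * o + δ) := mul_le_mul_of_nonneg_left e1 (by linarith)
        have e3 : (δ : ℝ) ≤ (v : ℝ) ^ 80 := by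
          have : δ ≤ v ^ 80 := by
            have : v ^ 48 ≤ v ^ 80 := Nat.pow_le_pow_right (by omega) (by norm_num)
            omega
          exact_mod_cast this
        have e4 : (1 - th0) * (δ : ℝ) ≤ 1 * δ := mul_le_mul_of_nonneg_right (by linarith) (by positivity)
        have e5 : th0 * (T : ℝ) ≤ th0 * t := mul_le_mul_of_nonneg_left (by exact_mod_cast hTt) hθ0.le
        have e6 : (1 / 5 : ℝ) * ((ρ - 1) * t) ≤ th0 * ((ρ - 1) * t) := mul_le_mul_of_nonneg_right hθ2.le (by positivity)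
        have e7 : (ρ - 1) * (4 * m * (v : ℝ) ^ 80) ≤ (ρ - 1) * t := mul_le_mul_of_nonneg_left htv hρ0.le
        have e8 : 160 * (v : ℝ) ^ 80 ≤ (ρ - 1) * (4 * m * (v : ℝ) ^ 80) := by
          have : 40 * (v : ℝ) ^ 80 ≤ (ρ - 1) * m * (v : ℝ) ^ 80 := mul_le_mul_of_nonneg_right hρm (by positivity)
          linarith
        have e9 : 40 * (j : ℝ) ≤ (ρ - 1) * t + 40 := by
          have f2 : 40 * ((m : ℝ) * j) ≤ m * ((ρ - 1) * t + 40) := by
            have f3 : 40 * (t : ℝ) ≤ (ρ - 1) * m * t := mul_le_mul_of_nonneg_right hρm (by positivity)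
            linarith
          have f4 : (m : ℝ) * (40 * j) ≤ m * ((ρ - 1) * t + 40) := by linarith
          exact le_of_mul_le_mul_left f4 hm0
        push_cast
        have e10 : 2 * (1 - th0) * o + L - T = (1 - th0) * (2 * o + δ) - (1 - th0) * δ + L - T := by ring
        linarith)
      have hbad : 6 * ((2 * (K : ℝ) + 1) * pb t (fun y => ¬ Gd t (4 ^ v : ℕ) δ y)) ≤ 6 * ((2 * K + 1) * RR A v) := by
        gcongr
      have hCw : C / w ≤ C / v := by
        apply div_le_div_of_nonneg_left hC.le hv0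
        exact_mod_cast hvw'
      rw [hj]
      refine (abs_sub_le _ _ _).trans ((add_le_add k1 hst).trans ?_)
      push_cast
      have e7 : ((i : ℝ) + 1) * (C / v + 6 * ((2 * K + 1) * RR A v)) =
        i * (C / v + 6 * ((2 * K + 1) * RR A v)) + (C / v + 6 * ((2 * K + 1) * RR A v)) := by ring
      rw [e7]
      linarith
  have k := key m le_rfl
  rw [Nat.mul_div_cancel_left _ hm1, ccK_eq] at k
  exact k.trans p1

end Pool.Agent.J4H8.KP
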